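import Pool.Agent.H.MP_2c58a9_co.B

namespace Pool.Agent.Results.MP_2c58a9_co.No

open Pool.Agent.H.MP_2c58a9_co Metric

noncomputable def orderType {ι : Type} (p : ι → EuclideanSpace ℝ (Fin 3))
    (u : EuclideanSpace ℝ (Fin 3)) (i j k : ι) : SignType :=
  SignType.sign (Matrix.det (Matrix.of ![(p j - p i).ofLp, (p k - p i).ofLp, u.ofLp]))

theorem result (N : ℕ) :
    ∃ (ι : Type) (_ : Fintype ι) (a : ι → Set (EuclideanSpace ℝ (Fin 3))),
      (∀ i, IsCompact (a i) ∧ Convex ℝ (a i) ∧ (∃ c, closedBall c 1 ⊆ a i) ∧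
        ∃ c, a i ⊆ closedBall c 4) ∧
      (∀ i j k, i ≠ j → i ≠ k → j ≠ k →
        ¬ ∃ L : AffineSubspace ℝ (EuclideanSpace ℝ (Fin 3)), Module.finrank ℝ L.direction = 1 ∧
          (a i ∩ L).Nonempty ∧ (a j ∩ L).Nonempty ∧ (a k ∩ L).Nonempty) ∧
      N ≤ Set.ncard {S : Set (ι → ι → ι → SignType) |
        ∃ (u : EuclideanSpace ℝ (Fin 3)) (c : ℝ) (p : ι → EuclideanSpace ℝ (Fin 3)), u ≠ 0 ∧
          (∀ i, p i ∈ a i ∧ inner ℝ u (p i) = c) ∧ S = {orderType p u, orderType p (-u)}} := by
  refine ⟨Bool ⊕ Fin (N + 1), inferInstance, fam N,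
    fun i => ⟨fam_compact N i, fam_convex N i, fam_stub N i⟩, ?_, ?_⟩
  · rintro i j k hij hik hjk ⟨L, hL, ⟨x, hx, hx'⟩, ⟨y, hy, hy'⟩, ⟨z, hz, hz'⟩⟩
    exact sep hij hik hjk hL hx hy hz hx' hy' hz'
  · have pos : ∀ i : ℕ, 0 < tt N i := fun i => by linarith [tt_ge N i]
    let s : Fin N → ℝ := fun i => tt N (2 * i + 1)
    let χ : Fin N → _ := fun i => orderType (pt N (s i)) (nor N (s i))
    let χ' : Fin N → _ := fun i => orderType (pt N (s i)) (-nor N (s i))
    have h1 : ∀ i (j : Fin (N + 1)), χ i (.inl false) (.inl true) (.inr j) =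
        if (j : ℕ) ≤ i then -1 else 1 := fun i j => by
      simp only [χ, orderType]
      rw [pt_det N (pos _)]
      split_ifs with h
      · refine sign_neg ?_
        have : (j : ℝ) ≤ (i : ℕ) := by exact_mod_cast h
        simp only [s, tt]
        push_cast
        linarith
      · refine sign_pos ?_
        have : ((i : ℕ) : ℝ) + 1 ≤ (j : ℕ) := by exact_mod_cast not_le.1 h
        simp only [s, tt]
        push_cast
        linarith
    have h2 : ∀ i a b c, χ' i a b c = -χ i a b c := fun i a b c => by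
      simp only [χ, χ', orderType]
      rw [← Left.sign_neg]
      congr 1
      simp [Matrix.det_fin_three]
      ring
    have key : ∀ i k : Fin N, i < k → ({χ i, χ' i} : Set _) ≠ {χ k, χ' k} := fun i k hik h => by
      have : χ i ∈ ({χ k, χ' k} : Set _) := h ▸ Set.mem_insert _ _
      rcases this with e | e
      · have a := h1 i ⟨i + 1, by omega⟩
        have b := h1 k ⟨i + 1, by omega⟩
        rw [if_neg (by simp)] at a
        rw [if_pos (by simpa using Nat.succ_le_of_lt hik), ← e, a] at b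
        exact absurd b (by decide)
      · have a := h1 i 0
        have b := h1 k 0
        rw [if_pos (by simp)] at a b
        rw [Set.mem_singleton_iff.1 e, h2, b] at a
        exact absurd a (by decide)
    have := Set.ncard_le_ncard_of_injOn (s := (Set.univ : Set (Fin N)))
      (t := {S : Set (Bool ⊕ Fin (N + 1) → Bool ⊕ Fin (N + 1) → Bool ⊕ Fin (N + 1) → SignType) |
        ∃ (u : EuclideanSpace ℝ (Fin 3)) (c : ℝ)
          (p : Bool ⊕ Fin (N + 1) → EuclideanSpace ℝ (Fin 3)), u ≠ 0 ∧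
          (∀ i, p i ∈ fam N i ∧ inner ℝ u (p i) = c) ∧ S = {orderType p u, orderType p (-u)}})
      (fun i => {χ i, χ' i})
      (fun i _ => ⟨nor N (s i), 0, pt N (s i), fun h => by
        simpa [nor] using congrArg (fun w : EuclideanSpace ℝ (Fin 3) => w 1) h,
        fun a => ⟨pt_mem i.2 a, pt_inner N (pos _) a⟩, rfl⟩)
      (fun i _ k _ h => by
        rcases lt_trichotomy i k with l | l | l
        · exact absurd h (key i k l)
        · exact l
        · exact absurd h.symm (key k i l)) (Set.toFinite _)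
    simpa using this

end Pool.Agent.Results.MP_2c58a9_co.No
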